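import Pool.Agent.MT100.Stmts

/-!
# Module KRN: tensor products of matrices
-/

namespace Pool.Agent.Helper26_MT100

open Pool.Agent.MT100

/-- KRN. -/
theorem krn : KrnStmt := by
  refine ⟨?_, ?_, ?_⟩
  · intro ι m _ _ _ _ R _ A A'
    ext β α
    rw [Matrix.mul_apply]
    show ∏ s, (A s * A' s) (β s) (α s) = ∑ γ : ι → m, kr A β γ * kr A' γ α
    simp only [Matrix.mul_apply, kr, ← Finset.prod_mul_distrib]
    rw [Finset.prod_univ_sum, Fintype.piFinset_univ]
  · intro ι m _ _ _ _ R _
    ext β α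
    show ∏ s, (1 : Matrix m m R) (β s) (α s) = (1 : Matrix (ι → m) (ι → m) R) β α
    by_cases h : β = α
    · subst h
      simp
    · rw [Matrix.one_apply_ne h]
      obtain ⟨s, hs⟩ := Function.ne_iff.1 h
      exact Finset.prod_eq_zero (Finset.mem_univ s) (Matrix.one_apply_ne hs)
  · intro ι m _ R R' _ _ f A
    ext β α
    show ∏ s, (A s).map f (β s) (α s) = f (∏ s, A s (β s) (α s))
    rw [map_prod]
    rfl

end Pool.Agent.Helper26_MT100
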