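import Pool.Agent.Helper51_MT.Greedy

/-!
# Module DEN: the exceptional set has density zero
-/

namespace Pool.Agent.Helper26_MT100

open Filter Topology

/-- A set of natural numbers with at most `c` elements in each late window of length `K`, for every
`K`, has natural density zero. -/
theorem density_of_windows (S : Set ℕ) (c : ℕ)
    (h : ∀ K : ℕ, ∃ n1 : ℕ, ∀ n ≥ n1, (S ∩ Set.Ioc (n - K) n).ncard ≤ c) :
    Tendsto (fun N : ℕ => ((S ∩ Set.Iio N).ncard : ℝ) / N) atTop (𝓝 0) := by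
  rw [Metric.tendsto_atTop]
  intro ε hε
  obtain ⟨K, hK⟩ := exists_nat_gt (2 * (c : ℝ) / ε)
  obtain ⟨n1', hn1'⟩ := h (K + 1)
  set K' := K + 1 with hK'
  set n1 := n1' + 1 with hn1
  have hwin : ∀ n ≥ n1, (S ∩ Set.Ioc (n - K') n).ncard ≤ c := fun n hn => hn1' n (by omega)
  have hcount : ∀ t : ℕ, (S ∩ Set.Iio (n1 + t * K')).ncard ≤ n1 + t * c := by
    intro t
    induction t with
    | zero =>
      have h1 : (S ∩ Set.Iio (n1 + 0 * K')).ncard ≤ (Set.Iio n1).ncard := by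
        refine Set.ncard_le_ncard ?_ (Set.finite_Iio n1)
        rintro x ⟨-, hx⟩
        simpa using hx
      have h2 : (Set.Iio n1).ncard = n1 := by
        rw [Set.ncard_eq_toFinset_card']
        simp
      omega
    | succ t ih =>
      have h1 : S ∩ Set.Iio (n1 + (t + 1) * K') ⊆ (S ∩ Set.Iio (n1 + t * K')) ∪
          (S ∩ Set.Ioc (n1 + (t + 1) * K' - 1 - K') (n1 + (t + 1) * K' - 1)) := by
        rintro x ⟨hxS, hx⟩
        rw [Set.mem_Iio] at hx
        by_cases hx2 : x < n1 + t * K'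
        · exact Or.inl ⟨hxS, hx2⟩
        · refine Or.inr ⟨hxS, ?_, ?_⟩
          · have : (t + 1) * K' = t * K' + K' := by ring
            omega
          · omega
      have h2 := Set.ncard_le_ncard h1 (((Set.finite_Iio _).subset Set.inter_subset_right).union
        ((Set.finite_Ioc _ _).subset Set.inter_subset_right))
      have h3 := Set.ncard_union_le (S ∩ Set.Iio (n1 + t * K'))
        (S ∩ Set.Ioc (n1 + (t + 1) * K' - 1 - K') (n1 + (t + 1) * K' - 1))
      have h4 : n1 ≤ n1 + (t + 1) * K' - 1 := by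
        have : (t + 1) * K' = t * K' + K' := by ring
        omega
      have h5 := hwin _ h4
      have h6 : (t + 1) * c = t * c + c := by ring
      omega
  obtain ⟨N0, hN0⟩ := exists_nat_gt (2 * ((n1 : ℝ) + c) / ε)
  refine ⟨max N0 1, fun N hN => ?_⟩
  have hN1 : 1 ≤ N := le_trans (le_max_right _ _) hN
  have hNN0 : (N0 : ℝ) ≤ N := by exact_mod_cast le_trans (le_max_left _ _) hN
  have hNpos : (0 : ℝ) < N := by exact_mod_cast hN1
  have h1 : (S ∩ Set.Iio N).ncard ≤ n1 + (N / K' + 1) * c := by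
    refine le_trans (Set.ncard_le_ncard ?_ ((Set.finite_Iio _).subset Set.inter_subset_right))
      (hcount (N / K' + 1))
    refine Set.inter_subset_inter_right S (Set.Iio_subset_Iio ?_)
    have := Nat.div_add_mod N K'
    have h2 := Nat.mod_lt N (show K' > 0 by omega)
    have h3 : (N / K' + 1) * K' = K' * (N / K') + K' := by ring
    omega
  have h2 : ((S ∩ Set.Iio N).ncard : ℝ) ≤ n1 + ((N : ℝ) / K' + 1) * c := by
    have h3 : ((S ∩ Set.Iio N).ncard : ℝ) ≤ (n1 : ℝ) + (((N / K' : ℕ) : ℝ) + 1) * c := by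
      exact_mod_cast h1
    have h4 : ((N / K' : ℕ) : ℝ) ≤ (N : ℝ) / K' := Nat.cast_div_le
    have h5 : (0 : ℝ) ≤ c := Nat.cast_nonneg c
    nlinarith [mul_le_mul_of_nonneg_right h4 h5]
  rw [Real.dist_eq, sub_zero, abs_of_nonneg (by positivity), div_lt_iff₀ hNpos]
  have hK'pos : (0 : ℝ) < K' := by rw [hK']; positivity
  have h6 : (N : ℝ) / K' * c < ε / 2 * N ∨ c = 0 := by
    rcases Nat.eq_zero_or_pos c with hc | hc
    · exact Or.inr hc
    · left
      have h7 : 2 * (c : ℝ) < ε * K' := by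
        have : (2 * (c : ℝ) / ε) < K' := lt_trans hK (by rw [hK']; push_cast; linarith)
        rw [div_lt_iff₀ hε] at this
        linarith
      rw [div_mul_eq_mul_div, div_lt_iff₀ hK'pos]
      nlinarith
  have h8 : (n1 : ℝ) + c < ε / 2 * N := by
    have := lt_of_lt_of_le hN0 hNN0
    rw [div_lt_iff₀ hε] at this
    linarith
  have h9 : (N : ℝ) / K' * c ≤ ε / 2 * N := by
    rcases h6 with h6 | h6
    · exact h6.le
    · rw [h6]; simp; positivity
  nlinarith

/-- **DEN.**  `x κ n` is the vector of the products of the coordinates of the shifted period at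
`n - κ`, `MM n` the unknown invertible matrix of the window with top `n`. -/
theorem den {ι : Type*} [Fintype ι] [DecidableEq ι] (x : ℕ → ℕ → ι → ℂ)
    (MM : ℕ → Matrix ι ι ℂ) (hMM : ∀ n, IsUnit (MM n).det) (S : Set ℕ)
    (hS : ∀ K : ℕ, ∃ n1 : ℕ, ∀ n ≥ n1, ∀ κ < K, n - κ ∈ S →
      ∃ q : ι → ℚ, q ≠ 0 ∧ ∑ a, ∑ b, (q a : ℂ) * MM n a b * x κ n b = 0)
    (hG : ∀ (J : ℕ) (κ : Fin J → ℕ), Function.Injective κ → ∃ n0 : ℕ, ∀ n ≥ n0,
      ∀ c : (Fin J → ι) → ℚ, ∑ β, (c β : ℂ) * ∏ i, x (κ i) n (β i) = 0 → c = 0) :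
    (∀ K : ℕ, ∃ n1 : ℕ, ∀ n ≥ n1, (S ∩ Set.Ioc (n - K) n).ncard ≤ Fintype.card ι ^ 2) ∧
    Tendsto (fun N : ℕ => ((S ∩ Set.Iio N).ncard : ℝ) / N) atTop (𝓝 0) := by
  have hwin : ∀ K : ℕ, ∃ n1 : ℕ, ∀ n ≥ n1,
      (S ∩ Set.Ioc (n - K) n).ncard ≤ Fintype.card ι ^ 2 := by
    intro K
    obtain ⟨n1, hn1⟩ := hS K
    have hG' : ∀ κ : Fin (Fintype.card ι ^ 2 + 1) → Fin K, ∃ n0 : ℕ, ∀ n ≥ n0,
        Function.Injective κ → ∀ c : (Fin (Fintype.card ι ^ 2 + 1) → ι) → ℚ,
          ∑ β, (c β : ℂ) * ∏ i, x (κ i : ℕ) n (β i) = 0 → c = 0 := by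
      intro κ
      by_cases hκ : Function.Injective κ
      · obtain ⟨n0, hn0⟩ := hG _ (fun i => (κ i : ℕ)) (Fin.val_injective.comp hκ)
        exact ⟨n0, fun n hn _ => hn0 n hn⟩
      · exact ⟨0, fun n _ h => absurd h hκ⟩
    choose n0 hn0 using hG'
    refine ⟨max n1 (Finset.univ.sup n0), fun n hn => ?_⟩
    by_contra hcon
    push Not at hcon
    have hfin : (S ∩ Set.Ioc (n - K) n).Finite :=
      (Set.finite_Ioc _ _).subset Set.inter_subset_right
    obtain ⟨T, hTsub, hTcard⟩ := Set.exists_subset_card_eq (Nat.succ_le_of_lt hcon)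
    have hTfin : T.Finite := hfin.subset hTsub
    have e := hTfin.equivFinOfCardEq hTcard
    have hmem : ∀ i, ((e.symm i : T) : ℕ) ∈ S ∩ Set.Ioc (n - K) n := fun i =>
      hTsub (e.symm i).2
    set κ : Fin (Fintype.card ι ^ 2 + 1) → Fin K := fun i =>
      ⟨n - ((e.symm i : T) : ℕ), by
        have h1 := (hmem i).2.1
        have h2 := (hmem i).2.2
        omega⟩ with hκdef
    have hκinj : Function.Injective κ := by
      intro i j hij
      have h1 : n - ((e.symm i : T) : ℕ) = n - ((e.symm j : T) : ℕ) := congrArg Fin.val hij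
      have h2 := (hmem i).2.2
      have h3 := (hmem j).2.2
      have h4 : ((e.symm i : T) : ℕ) = ((e.symm j : T) : ℕ) := by omega
      exact e.symm.injective (Subtype.ext h4)
    have hex : ∀ i, ∃ q : ι → ℚ, q ≠ 0 ∧
        ∑ a, ∑ b, (q a : ℂ) * MM n a b * x (κ i : ℕ) n b = 0 := by
      intro i
      refine hn1 n (le_trans (le_max_left _ _) hn) (κ i : ℕ) (κ i).2 ?_
      have h2 := (hmem i).2.2
      have h3 : n - (κ i : ℕ) = ((e.symm i : T) : ℕ) := by
        show n - (n - ((e.symm i : T) : ℕ)) = _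
        omega
      rw [h3]
      exact (hmem i).1
    choose q hq0 hq using hex
    obtain ⟨c, hc0, hc⟩ := Pool.Agent.Helper51_MT.greedy (k := ℚ) (K := ℂ) (ι := ι)
      (Nat.lt_succ_self _) q hq0 (fun i => x (κ i : ℕ) n) (MM n) (hMM n) (by
        intro i
        exact hq i)
    refine hc0 (hn0 κ n ?_ hκinj c hc)
    exact le_trans (Finset.le_sup (f := n0) (Finset.mem_univ κ))
      (le_trans (le_max_right _ _) hn)
  exact ⟨hwin, density_of_windows S _ hwin⟩

end Pool.Agent.Helper26_MT100
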