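import Pool.Agent.MT100.Stmts
import Pool.Agent.Helper26_MT100.Den

/-!
# Module DEN: the exceptional integers have density zero (wrapper)
-/

namespace Pool.Agent.Helper26_MT100

open Filter Topology Matrix
open Pool.Agent.MT100

/-- From `Iio` to `Iic`. -/
theorem densZero_of (S : Set ℕ)
    (h : Tendsto (fun N : ℕ => ((S ∩ Set.Iio N).ncard : ℝ) / N) atTop (𝓝 0)) :
    DensZero S := by
  unfold DensZero
  have h1 : Tendsto (fun N : ℕ => ((S ∩ Set.Iio N).ncard : ℝ) / N + 1 / (N : ℝ)) atTop (𝓝 0) := by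
    have := h.add tendsto_one_div_atTop_nhds_zero_nat
    rwa [add_zero] at this
  refine squeeze_zero (fun N => by positivity) (fun N => ?_) h1
  have h2 : Nat.card {n : ℕ // n ∈ S ∧ n ≤ N} ≤ (S ∩ Set.Iio N).ncard + 1 := by
    have h3 : Nat.card {n : ℕ // n ∈ S ∧ n ≤ N} = (S ∩ Set.Iic N).ncard := rfl
    rw [h3]
    have h4 : S ∩ Set.Iic N ⊆ insert N (S ∩ Set.Iio N) := by
      rintro x ⟨hx, hxN⟩
      rcases lt_or_eq_of_le (Set.mem_Iic.1 hxN) with h5 | h5
      · exact Or.inr ⟨hx, h5⟩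
      · exact Or.inl h5
    have hfin : (S ∩ Set.Iio N).Finite := (Set.finite_Iio N).subset Set.inter_subset_right
    exact (Set.ncard_le_ncard h4 (hfin.insert N)).trans (Set.ncard_insert_le _ _)
  rw [← add_div]
  have h3 : (Nat.card {n : ℕ // n ∈ S ∧ n ≤ N} : ℝ) ≤ ((S ∩ Set.Iio N).ncard : ℝ) + 1 := by
    exact_mod_cast h2
  gcongr

/-- Absolutely convergent at `x`. -/
def Sb (x : ℝ) (f : PowerSeries ℚ) : Prop :=
  Summable fun k => |((PowerSeries.coeff k f : ℚ) : ℝ)| * |x| ^ k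

theorem sb_one (x : ℝ) : Sb x 1 := by
  refine summable_of_ne_finset_zero (s := {0}) fun k hk => ?_
  rw [Finset.mem_singleton] at hk
  rw [PowerSeries.coeff_one, if_neg hk]
  simp

theorem ev_one (x : ℝ) : ev 1 x = 1 := by
  unfold ev
  rw [tsum_eq_single 0]
  · simp
  · intro k hk
    rw [PowerSeries.coeff_one, if_neg hk]
    simp

theorem ev_prod (hE : EvaStmt) (x : ℝ) {σ : Type*} (s : Finset σ) (f : σ → PowerSeries ℚ)
    (hf : ∀ i ∈ s, Sb x (f i)) : Sb x (∏ i ∈ s, f i) ∧ ev (∏ i ∈ s, f i) x = ∏ i ∈ s, ev (f i) x := by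
  classical
  induction s using Finset.induction_on with
  | empty => exact ⟨by rw [Finset.prod_empty]; exact sb_one x, by simp [ev_one]⟩
  | insert a s ha ih =>
    obtain ⟨h1, h2⟩ := ih fun i hi => hf i (Finset.mem_insert_of_mem hi)
    have h3 := hf a (Finset.mem_insert_self a s)
    obtain ⟨h4, -, -, h5⟩ := hE.2.2.1 (f a) (∏ i ∈ s, f i) x h3 h1
    rw [Finset.prod_insert ha, Finset.prod_insert ha]
    exact ⟨h4, by rw [h5, h2]⟩

/-- The multiplicity of a pair. -/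
def mu {r : ℕ} (β : SI r) : ℚ := if β.1.1 < β.1.2 then 2 else 1

theorem mu_ne {r : ℕ} (β : SI r) : mu β ≠ 0 := by
  unfold mu
  split_ifs <;> norm_num

theorem det_en (r : ℕ) (x : ℝ) : (en r x).det = 1 := by
  rw [Matrix.det_of_isUpperTriangular]
  · refine Finset.prod_eq_one fun i _ => ?_
    simp [en]
  · intro i j hij
    have h : ¬ i ≤ j := not_le.2 hij
    simp [en, h]

/-- The corner pair. -/
def cz (D : Dat) : SI D.r := ⟨(D.fz, D.fz), le_rfl⟩

/-- The value of the first row of the symmetric square. -/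
theorem ev_sy (hE : EvaStmt) (x : ℝ) {r : ℕ} (T : Matrix (Fin r) (Fin r) (PowerSeries ℚ))
    (hT : ∀ i j, Sb x (T i j)) (β0 β : SI r) (h0 : β0.1.1 = β0.1.2) :
    Sb x (sy T β0 β) ∧
    ev (sy T β0 β) x = (mu β : ℝ) * (ev (T β0.1.1 β.1.1) x * ev (T β0.1.1 β.1.2) x) := by
  obtain ⟨h1, -, -, h2⟩ := hE.2.2.1 (T β0.1.1 β.1.1) (T β0.1.1 β.1.2) x (hT _ _) (hT _ _)
  unfold sy mu
  rw [← h0]
  split_ifs with h
  · obtain ⟨h3, -, -, h4⟩ := hE.2.2.1 (T β0.1.1 β.1.2) (T β0.1.1 β.1.1) x (hT _ _) (hT _ _)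
    obtain ⟨-, h5, h6, -⟩ := hE.2.2.1 _ _ x h1 h3
    refine ⟨h5, ?_⟩
    rw [h6, h2, h4]
    push_cast
    ring
  · rw [add_zero]
    refine ⟨h1, ?_⟩
    rw [h2]
    push_cast
    ring

/-- The windows, uniformly in the unknown matrix. -/
theorem win_unif {ι : Type*} [Fintype ι] [DecidableEq ι] (x : ℕ → ℕ → ι → ℂ) (thr : ℕ → ℕ)
    (hG : ∀ (J : ℕ) (κ : Fin J → ℕ), Function.Injective κ → ∃ n0 : ℕ, ∀ n ≥ n0,
      ∀ c : (Fin J → ι) → ℚ, ∑ β, (c β : ℂ) * ∏ i, x (κ i) n (β i) = 0 → c = 0) :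
    ∃ n1 : ℕ → ℕ, (∀ K, K ≤ n1 K) ∧ ∀ (MM : ℕ → Matrix ι ι ℂ) (S : Set ℕ),
      (∀ n, IsUnit (MM n).det) →
      (∀ K : ℕ, ∀ n ≥ thr K, ∀ κ < K, n - κ ∈ S →
        ∃ q : ι → ℚ, q ≠ 0 ∧ ∑ a, ∑ b, (q a : ℂ) * MM n a b * x κ n b = 0) →
      ∀ K : ℕ, ∀ n ≥ n1 K, (S ∩ Set.Ioc (n - K) n).ncard ≤ Fintype.card ι ^ 2 := by
  have hG' : ∀ K : ℕ, ∀ κ : Fin (Fintype.card ι ^ 2 + 1) → Fin K, ∃ n0 : ℕ, ∀ n ≥ n0,
      Function.Injective κ → ∀ c : (Fin (Fintype.card ι ^ 2 + 1) → ι) → ℚ,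
        ∑ β, (c β : ℂ) * ∏ i, x (κ i : ℕ) n (β i) = 0 → c = 0 := by
    intro K κ
    by_cases hκ : Function.Injective κ
    · obtain ⟨n0, hn0⟩ := hG _ (fun i => (κ i : ℕ)) (Fin.val_injective.comp hκ)
      exact ⟨n0, fun n hn _ => hn0 n hn⟩
    · exact ⟨0, fun n _ h => absurd h hκ⟩
  choose n0 hn0 using hG'
  refine ⟨fun K => max K (max (thr K) (Finset.univ.sup (n0 K))), fun K => le_max_left _ _, ?_⟩
  intro MM S hMM hS K n hn
  have hn1 : thr K ≤ n := le_trans (le_trans (le_max_left _ _) (le_max_right _ _)) hn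
  have hn2 : Finset.univ.sup (n0 K) ≤ n :=
    le_trans (le_trans (le_max_right _ _) (le_max_right _ _)) hn
  by_contra hcon
  push Not at hcon
  have hfin : (S ∩ Set.Ioc (n - K) n).Finite :=
    (Set.finite_Ioc _ _).subset Set.inter_subset_right
  obtain ⟨T, hTsub, hTcard⟩ := Set.exists_subset_card_eq (Nat.succ_le_of_lt hcon)
  have hTfin : T.Finite := hfin.subset hTsub
  have e := hTfin.equivFinOfCardEq hTcard
  have hmem : ∀ i, ((e.symm i : T) : ℕ) ∈ S ∩ Set.Ioc (n - K) n := fun i =>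
    hTsub (e.symm i).2
  set κ : Fin (Fintype.card ι ^ 2 + 1) → Fin K := fun i =>
    ⟨n - ((e.symm i : T) : ℕ), by
      have h1 := (hmem i).2.1
      have h2 := (hmem i).2.2
      omega⟩ with hκdef
  have hκinj : Function.Injective κ := by
    intro i j hij
    have h1 : n - ((e.symm i : T) : ℕ) = n - ((e.symm j : T) : ℕ) := congrArg Fin.val hij
    have h2 := (hmem i).2.2
    have h3 := (hmem j).2.2
    have h4 : ((e.symm i : T) : ℕ) = ((e.symm j : T) : ℕ) := by omega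
    exact e.symm.injective (Subtype.ext h4)
  have hex : ∀ i, ∃ q : ι → ℚ, q ≠ 0 ∧
      ∑ a, ∑ b, (q a : ℂ) * MM n a b * x (κ i : ℕ) n b = 0 := by
    intro i
    refine hS K n hn1 (κ i : ℕ) (κ i).2 ?_
    have h2 := (hmem i).2.2
    have h3 : n - (κ i : ℕ) = ((e.symm i : T) : ℕ) := by
      show n - (n - ((e.symm i : T) : ℕ)) = _
      omega
    rw [h3]
    exact (hmem i).1
  choose q hq0 hq using hex
  obtain ⟨c, hc0, hc⟩ := Pool.Agent.Helper51_MT.greedy (k := ℚ) (K := ℂ) (ι := ι)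
    (Nat.lt_succ_self _) q hq0 (fun i => x (κ i : ℕ) n) (MM n) (hMM n) (by
      intro i
      exact hq i)
  exact hc0 (hn0 K κ n (le_trans (Finset.le_sup (f := n0 K) (Finset.mem_univ κ)) hn2) hκinj c hc)

/-- The number of pairs. -/
theorem card_SI (r : ℕ) : Fintype.card (SI r) = r * (r + 1) / 2 := by
  have h1 : Fintype.card (SI r) = ∑ j : Fin r, ((j : ℕ) + 1) := by
    rw [Fintype.card_subtype, Finset.card_filter, ← Finset.univ_product_univ,
      Finset.sum_product_right]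
    refine Finset.sum_congr rfl fun j _ => ?_
    rw [← Finset.card_filter]
    have h2 : Finset.filter (fun i : Fin r => i ≤ j) Finset.univ = Finset.Iic j := by
      ext i
      simp
    rw [h2, Fin.card_Iic]
  rw [h1, Fin.sum_univ_eq_sum_range (fun j => j + 1) r]
  have h3 : (∑ j ∈ Finset.range r, (j + 1)) * 2 = r * (r + 1) := by
    induction r with
    | zero => rfl
    | succ r ih =>
      rw [Finset.sum_range_succ, add_mul]
      have h4 : (∑ j ∈ Finset.range r, (j + 1)) * 2 = r * (r + 1) := by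
        clear h1 ih
        induction r with
        | zero => rfl
        | succ r ih =>
          rw [Finset.sum_range_succ, add_mul, ih]
          ring
      rw [h4]
      ring
  omega

/-- DEN. -/
theorem denStmt (hSym : SymStmt) (hE : EvaStmt) (hG : GfnStmt) (hTra : TraStmt) (hSys : SysStmt)
    (hVal : ValStmt) (hFre : FreStmt) : DenStmt := by
  intro D
  -- the vectors and the matrices
  set F : ℕ → ℕ → Fin D.r → ℂ := fun κ n l =>
    ((ev (Tr D κ D.fz l) ((n : ℝ))⁻¹ : ℝ) : ℂ) with hF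
  set x : ℕ → ℕ → SI D.r → ℂ := fun κ n α => F κ n α.1.1 * F κ n α.1.2 with hx
  -- independence
  have hind : ∀ (J : ℕ) (κ : Fin J → ℕ), Function.Injective κ → ∃ n0 : ℕ, ∀ n ≥ n0,
      ∀ c : (Fin J → SI D.r) → ℚ, ∑ β, (c β : ℂ) * ∏ i, x (κ i) n (β i) = 0 → c = 0 := by
    intro J κ hκ
    have hTr : ∀ i, IsG (Tr D (κ i)) := fun i => hTra D (κ i)
    have hsy : ∀ i, IsG (sy (Tr D (κ i))) := fun i => hSys.1 _ _ (hTr i)
    have hkr : IsG (kr fun i => sy (Tr D (κ i))) := hSys.2 _ _ _ hsy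
    obtain ⟨n0, hn0⟩ := hG _ _ hkr (hFre D (Fin J) κ hκ)
    -- absolute convergence
    have hconv : ∀ p : Fin J × Fin D.r × Fin D.r, ∃ n2 : ℕ, ∀ n ≥ n2,
        Sb ((n : ℝ))⁻¹ (Tr D (κ p.1) p.2.1 p.2.2) := by
      intro p
      obtain ⟨Kk, N, q, B, hgs⟩ := hTr p.1
      obtain ⟨δ, hδ, hs⟩ := hE.1 _ (hgs.gH p.2.1 p.2.2)
      have h3 : Tendsto (fun n : ℕ => ((n : ℝ))⁻¹) atTop (𝓝 0) :=
        tendsto_inv_atTop_nhds_zero_nat
      have h4 := (Metric.tendsto_atTop.1 h3) δ hδ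
      obtain ⟨n2, hn2⟩ := h4
      refine ⟨n2, fun n hn => hs _ ?_⟩
      have := hn2 n hn
      rwa [Real.dist_eq, sub_zero] at this
    choose n2 hn2 using hconv
    refine ⟨max n0 (Finset.univ.sup n2), fun n hn c hc => ?_⟩
    have hn0' : n0 ≤ n := le_trans (le_max_left _ _) hn
    have hSb : ∀ i a b, Sb ((n : ℝ))⁻¹ (Tr D (κ i) a b) := fun i a b =>
      hn2 (i, a, b) n (le_trans (Finset.le_sup (f := n2) (Finset.mem_univ (i, a, b)))
        (le_trans (le_max_right _ _) hn))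
    -- the value of an entry of the first row
    have hval : ∀ β : Fin J → SI D.r, ev (kr (fun i => sy (Tr D (κ i))) (fun _ => cz D) β)
        ((n : ℝ))⁻¹ = ∏ i, ((mu (β i) : ℝ) * (ev (Tr D (κ i) D.fz (β i).1.1) ((n : ℝ))⁻¹ *
          ev (Tr D (κ i) D.fz (β i).1.2) ((n : ℝ))⁻¹)) := by
      intro β
      have h5 : ∀ i ∈ (Finset.univ : Finset (Fin J)), Sb ((n : ℝ))⁻¹
          (sy (Tr D (κ i)) (cz D) (β i)) := fun i _ =>
        (ev_sy hE _ _ (hSb i) (cz D) (β i) rfl).1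
      have h6 := (ev_prod hE ((n : ℝ))⁻¹ Finset.univ
        (fun i => sy (Tr D (κ i)) (cz D) (β i)) h5).2
      show ev (∏ i, sy (Tr D (κ i)) (cz D) (β i)) ((n : ℝ))⁻¹ = _
      rw [h6]
      refine Finset.prod_congr rfl fun i _ => ?_
      exact (ev_sy hE _ _ (hSb i) (cz D) (β i) rfl).2
    have hmain := hn0 n hn0' (fun β' β => if β' = (fun _ => cz D) then
      c β / ∏ i, mu (β i) else 0) ?_
    · funext β
      have h7 := congrFun (congrFun hmain (fun _ => cz D)) β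
      simp only [if_true, Matrix.zero_apply] at h7
      have h8 : (∏ i, mu (β i)) ≠ 0 := Finset.prod_ne_zero_iff.2 fun i _ => mu_ne (β i)
      rw [div_eq_zero_iff] at h7
      rcases h7 with h7 | h7
      · exact h7
      · exact absurd h7 h8
    · rw [Finset.sum_eq_single (fun _ => cz D)]
      · simp only [if_true]
        have h9 : ((∑ β : Fin J → SI D.r, (c β : ℝ) * ∏ i,
            (ev (Tr D (κ i) D.fz (β i).1.1) ((n : ℝ))⁻¹ *
              ev (Tr D (κ i) D.fz (β i).1.2) ((n : ℝ))⁻¹) : ℝ) : ℂ) = 0 := by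
          rw [← hc]
          push_cast
          rfl
        have h10 := Complex.ofReal_eq_zero.1 h9
        rw [← h10]
        refine Finset.sum_congr rfl fun β _ => ?_
        rw [hval, Finset.prod_mul_distrib]
        have h8 : (∏ i, (mu (β i) : ℝ)) ≠ 0 := Finset.prod_ne_zero_iff.2 fun i _ => by
          exact_mod_cast mu_ne (β i)
        push_cast
        field_simp
      · intro β' _ hβ'
        refine Finset.sum_eq_zero fun β _ => ?_
        rw [if_neg hβ']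
        simp
      · intro h
        exact absurd (Finset.mem_univ _) h
  have h1 : ∀ κ : ℕ, ∃ n1 : ℕ, ∀ n ≥ n1, W D ((n : ℝ) - κ) =
      (Tr D κ).map (fun f => ev f ((n : ℝ))⁻¹) * en D.r (-Real.log (n : ℝ)) := by
    intro κ
    have h2 := (tendsto_natCast_atTop_atTop (R := ℝ)).eventually (hVal D κ)
    exact eventually_atTop.1 h2
  choose n1 hn1 using h1
  obtain ⟨m1, hm1, hwin⟩ := win_unif x (fun K => max K ((Finset.range K).sup n1)) hind
  refine ⟨m1, fun P hP => ?_⟩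
  set M : ℕ → Matrix (Fin D.r) (Fin D.r) ℂ := fun n =>
    P * ((en D.r (-Real.log (n : ℝ))).map (Complex.ofRealHom))ᵀ with hM
  have hMdet : ∀ n, IsUnit (M n).det := by
    intro n
    have h1 : (M n).det = P.det := by
      rw [hM]
      show (P * ((en D.r (-Real.log (n : ℝ))).map (Complex.ofRealHom))ᵀ).det = P.det
      rw [Matrix.det_mul, Matrix.det_transpose, ← RingHom.mapMatrix_apply, ← RingHom.map_det,
        det_en, map_one, mul_one]
    rw [h1]
    exact hP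
  have hsydet : ∀ n, IsUnit (sy (M n)).det := by
    intro n
    have h1 : M n * (M n)⁻¹ = 1 := Matrix.mul_nonsing_inv _ (hMdet n)
    have h2 : sy (M n) * sy (M n)⁻¹ = 1 := by
      rw [← hSym.1, h1, hSym.2.1]
    exact IsUnit.of_mul_eq_one _ (by rw [← Matrix.det_mul, h2, Matrix.det_one])
  have hrel : ∀ K : ℕ, ∀ n ≥ max K ((Finset.range K).sup n1), ∀ κ < K,
      n - κ ∈ {n | Exc D P n} → ∃ q : SI D.r → ℚ, q ≠ 0 ∧
        ∑ a, ∑ b, (q a : ℂ) * sy (M n) a b * x κ n b = 0 := by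
    intro K n hn κ hκ hex
    have hκn : κ ≤ n := le_trans hκ.le (le_trans (le_max_left _ _) hn)
    have hW := hn1 κ n (le_trans (Finset.le_sup (f := n1) (Finset.mem_range.2 hκ))
      (le_trans (le_max_right _ _) hn))
    obtain ⟨-, q, hq0, hq⟩ := hex
    refine ⟨q, hq0, ?_⟩
    have hper : per D P (n - κ) D.fz = M n *ᵥ F κ n := by
      unfold per
      rw [hM]
      show P *ᵥ _ = (P * ((en D.r (-Real.log (n : ℝ))).map (Complex.ofRealHom))ᵀ) *ᵥ F κ n
      rw [← Matrix.mulVec_mulVec]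
      congr 1
      funext i
      rw [Nat.cast_sub hκn, hW]
      rw [Matrix.mul_apply, Matrix.mulVec, dotProduct]
      push_cast
      refine Finset.sum_congr rfl fun l _ => ?_
      rw [mul_comm]
      rfl
    rw [← hq]
    refine Finset.sum_congr rfl fun a _ => ?_
    rw [hper, hSym.2.2.2 D.r ℂ (M n) (F κ n) a, Finset.mul_sum]
    refine Finset.sum_congr rfl fun b _ => ?_
    rw [hx]
    ring
  have hw := hwin (fun n => sy (M n)) {n | Exc D P n} hsydet hrel
  refine ⟨?_, ?_⟩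
  · intro K n hn
    have h2 := hw K n hn
    rw [card_SI] at h2
    refine le_trans (le_of_eq ?_) h2
    have hK : K ≤ n := le_trans (hm1 K) hn
    have h3 : ({n | Exc D P n} ∩ Set.Ioc (n - K) n) =
        {m : ℕ | Exc D P m ∧ n < m + K ∧ m ≤ n} := by
      ext m
      simp only [Set.mem_inter_iff, Set.mem_ofPred_eq, Set.mem_Ioc]
      constructor
      · rintro ⟨h4, h5, h6⟩
        exact ⟨h4, by omega, h6⟩
      · rintro ⟨h4, h5, h6⟩
        exact ⟨h4, by omega, h6⟩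
    rw [h3]
    rfl
  · apply densZero_of
    exact density_of_windows _ _ fun K => ⟨m1 K, fun n hn => hw K n hn⟩

end Pool.Agent.Helper26_MT100
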