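import Pool.Agent.MT100.StmtsP
import Pool.Agent.Helper26_MT100.DenW

/-!
# Module DEP: windows and density for the polynomial parameter
-/

namespace Pool.Agent.Helper26_MT100

open Filter Topology Matrix Polynomial
open Pool.Agent.MT100

/-- The translated parameter. -/
theorem pv_shift (φ : ℚ[X]) (m : ℕ) (x : ℝ) : pv (φ.comp (X - C (m : ℚ))) x = pv φ (x - m) := by
  unfold pv
  rw [Polynomial.map_comp, Polynomial.eval_comp]
  simp

theorem natDegree_shift (φ : ℚ[X]) (m : ℕ) :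
    (φ.comp (X - C (m : ℚ))).natDegree = φ.natDegree := by
  rw [Polynomial.natDegree_comp, Polynomial.natDegree_X_sub_C, mul_one]

theorem lead_shift (φ : ℚ[X]) (m : ℕ) :
    (φ.comp (X - C (m : ℚ))).leadingCoeff = φ.leadingCoeff := by
  rw [Polynomial.leadingCoeff_comp (by rw [Polynomial.natDegree_X_sub_C]; exact one_ne_zero),
    Polynomial.leadingCoeff_X_sub_C, one_pow, mul_one]

/-- windows imply density zero -/
theorem densZero_of_card (S : Set ℕ) (c : ℕ) (n1 : ℕ → ℕ)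
    (h : ∀ K n : ℕ, n1 K ≤ n → Nat.card {m : ℕ // m ∈ S ∧ n < m + K ∧ m ≤ n} ≤ c) :
    DensZero S := by
  apply densZero_of
  refine density_of_windows S c fun K => ⟨max K (n1 K), fun n hn => ?_⟩
  refine le_trans (le_of_eq ?_) (h K n (le_trans (le_max_right _ _) hn))
  have hK : K ≤ n := le_trans (le_max_left _ _) hn
  have h3 : (S ∩ Set.Ioc (n - K) n) = {l : ℕ | l ∈ S ∧ n < l + K ∧ l ≤ n} := by
    ext l
    simp only [Set.mem_inter_iff, Set.mem_ofPred_eq, Set.mem_Ioc]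
    constructor
    · rintro ⟨h4, h5, h6⟩
      exact ⟨h4, by omega, h6⟩
    · rintro ⟨h4, h5, h6⟩
      exact ⟨h4, by omega, h6⟩
  rw [h3]
  rfl

/-- translation of the windows -/
theorem card_shift (S S' : Set ℕ) (m : ℕ) (hS : ∀ l, l ∈ S → l + m ∈ S') (K n : ℕ) :
    Nat.card {l : ℕ // l ∈ S ∧ n < l + K ∧ l ≤ n} ≤
      Nat.card {l : ℕ // l ∈ S' ∧ n + m < l + K ∧ l ≤ n + m} := by
  have hfin : Finite {l : ℕ // l ∈ S' ∧ n + m < l + K ∧ l ≤ n + m} := by
    refine Set.Finite.to_subtype ?_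
    exact (Set.finite_Iic (n + m)).subset fun l hl => hl.2.2
  refine Nat.card_le_card_of_injective (fun l => ⟨l.1 + m, hS _ l.2.1, by
    have := l.2.2.1; omega, by have := l.2.2.2; omega⟩) ?_
  intro a b hab
  have h1 := congrArg Subtype.val hab
  simp only at h1
  exact Subtype.ext (by omega)

/-- the windows for a parameter with free systems -/
theorem win_of_free (hSym : SymStmt) (hE : EvaStmt) (hSys : SysStmt) (hGdn : GdnStmt)
    (hTrp : TrpStmt) (hVap : VapStmt) (D : Dat) (φ : ℚ[X]) (hdeg : 0 < φ.natDegree)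
    (hlead : 0 < φ.leadingCoeff)
    (hfree : ∀ (ι : Type) [Fintype ι] [DecidableEq ι] (κ : ι → ℕ), Function.Injective κ →
      FreeE (kr fun i => sy (TrP D φ (κ i)))) :
    ∃ n1 : ℕ → ℕ, ∀ P : Matrix (Fin D.r) (Fin D.r) ℂ, IsUnit P.det →
      ∀ K n : ℕ, n1 K ≤ n →
        Nat.card {m : ℕ // m ∈ {m : ℕ | Excx D P (pv φ m)} ∧ n < m + K ∧ m ≤ n} ≤
          (D.r * (D.r + 1) / 2) ^ 2 := by
  have hTr : ∀ κ, IsG (TrP D φ κ) := fun κ => hTrp D φ hdeg κ
  -- thresholds for the values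
  have h1 : ∀ κ : ℕ, ∃ n1 : ℕ, ∀ n ≥ n1, W D (pv φ ((n : ℝ) - κ)) =
      (TrP D φ κ).map (fun f => ev f ((n : ℝ))⁻¹) *
        en D.r (-((φ.natDegree : ℝ) * Real.log (n : ℝ) + Real.log (φ.leadingCoeff : ℝ))) := by
    intro κ
    have h2 := (tendsto_natCast_atTop_atTop (R := ℝ)).eventually (hVap D φ hdeg hlead κ)
    exact eventually_atTop.1 h2
  choose n1 hn1 using h1
  -- thresholds for the convergence
  have hconv : ∀ κ : ℕ, ∃ n2 : ℕ, ∀ n ≥ n2, ∀ a b, Sb ((n : ℝ))⁻¹ (TrP D φ κ a b) := by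
    intro κ
    obtain ⟨Kk, N, q, B, hgs⟩ := hTr κ
    have h2 : ∀ p : Fin D.r × Fin D.r, ∃ n2 : ℕ, ∀ n ≥ n2, Sb ((n : ℝ))⁻¹
        (TrP D φ κ p.1 p.2) := by
      intro p
      obtain ⟨δ, hδ, hs⟩ := hE.1 _ (hgs.gH p.1 p.2)
      have h3 : Tendsto (fun n : ℕ => ((n : ℝ))⁻¹) atTop (𝓝 0) :=
        tendsto_inv_atTop_nhds_zero_nat
      obtain ⟨n2, hn2⟩ := (Metric.tendsto_atTop.1 h3) δ hδ
      refine ⟨n2, fun n hn => hs _ ?_⟩
      have := hn2 n hn
      rwa [Real.dist_eq, sub_zero] at this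
    choose n2 hn2 using h2
    refine ⟨Finset.univ.sup n2, fun n hn a b => hn2 (a, b) n ?_⟩
    exact le_trans (Finset.le_sup (f := n2) (Finset.mem_univ (a, b))) hn
  choose n2 hn2 using hconv
  obtain ⟨m1, hm1⟩ := hGdn (SI D.r) (cz D) (fun κ => sy (TrP D φ κ))
    (fun κ => hSys.1 _ _ (hTr κ)) hfree
    (fun K => max ((Finset.range K).sup n1) ((Finset.range K).sup n2))
  refine ⟨m1, fun P hP => ?_⟩
  set M : ℕ → Matrix (Fin D.r) (Fin D.r) ℂ := fun n =>
    P * ((en D.r (-((φ.natDegree : ℝ) * Real.log (n : ℝ) +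
      Real.log (φ.leadingCoeff : ℝ)))).map (Complex.ofRealHom))ᵀ with hM
  have hMdet : ∀ n, IsUnit (M n).det := by
    intro n
    have h1 : (M n).det = P.det := by
      rw [hM]
      show (P * ((en D.r (-((φ.natDegree : ℝ) * Real.log (n : ℝ) +
        Real.log (φ.leadingCoeff : ℝ)))).map (Complex.ofRealHom))ᵀ).det = P.det
      rw [Matrix.det_mul, Matrix.det_transpose, ← RingHom.mapMatrix_apply, ← RingHom.map_det,
        det_en, map_one, mul_one]
    rw [h1]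
    exact hP
  have hsydet : ∀ n, IsUnit (sy (M n)).det := by
    intro n
    have h1 : M n * (M n)⁻¹ = 1 := Matrix.mul_nonsing_inv _ (hMdet n)
    have h2 : sy (M n) * sy (M n)⁻¹ = 1 := by
      rw [← hSym.1, h1, hSym.2.1]
    exact IsUnit.of_mul_eq_one _ (by rw [← Matrix.det_mul, h2, Matrix.det_one])
  have hmuC : ∀ β : SI D.r, ((mu β : ℚ) : ℂ) ≠ 0 := fun β => by
    exact_mod_cast mu_ne β
  refine fun K n hn => le_trans ((hm1 {m : ℕ | Excx D P (pv φ m)}
    (fun n => sy (M n) * Matrix.diagonal fun β => ((mu β : ℚ) : ℂ)⁻¹) ?_ ?_).1 K n hn) ?_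
  · intro n
    rw [Matrix.det_mul, Matrix.det_diagonal]
    refine (hsydet n).mul ?_
    exact isUnit_iff_ne_zero.2 (Finset.prod_ne_zero_iff.2 fun β _ => inv_ne_zero (hmuC β))
  · intro K n κ hn hκ hκn hS
    have hW := hn1 κ n (le_trans (Finset.le_sup (f := n1) (Finset.mem_range.2 hκ))
      (le_trans (le_max_left _ _) hn))
    have hSb := hn2 κ n (le_trans (Finset.le_sup (f := n2) (Finset.mem_range.2 hκ))
      (le_trans (le_max_right _ _) hn))
    obtain ⟨-, q, hq0, hq⟩ := hS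
    refine ⟨q, hq0, ?_⟩
    set F : Fin D.r → ℂ := fun l => ((ev (TrP D φ κ D.fz l) ((n : ℝ))⁻¹ : ℝ) : ℂ) with hF
    have hper : perx D P (pv φ ((n - κ : ℕ) : ℝ)) D.fz = M n *ᵥ F := by
      unfold perx
      rw [hM]
      show P *ᵥ _ = (P * ((en D.r (-((φ.natDegree : ℝ) * Real.log (n : ℝ) +
        Real.log (φ.leadingCoeff : ℝ)))).map (Complex.ofRealHom))ᵀ) *ᵥ F
      rw [← Matrix.mulVec_mulVec]
      congr 1
      funext i
      rw [Nat.cast_sub hκn, hW]
      rw [Matrix.mul_apply, Matrix.mulVec, dotProduct]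
      push_cast
      refine Finset.sum_congr rfl fun l _ => ?_
      rw [mul_comm]
      rfl
    rw [← hq]
    refine Finset.sum_congr rfl fun a _ => ?_
    rw [hper, hSym.2.2.2 D.r ℂ (M n) F a, Finset.mul_sum]
    refine Finset.sum_congr rfl fun b _ => ?_
    rw [Matrix.mul_diagonal, (ev_sy hE _ _ hSb (cz D) b rfl).2]
    have hb := hmuC b
    have h5 : ((cz D).1.1 : Fin D.r) = D.fz := rfl
    rw [h5, hF]
    push_cast
    field_simp
  · rw [card_SI]

/-- DEP; the freeness is only used for parameters which are somewhere at most `λ` on the positive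
real line. -/
theorem dep (hSym : SymStmt) (hE : EvaStmt) (hSys : SysStmt) (hGdn : GdnStmt)
    (hTrp : TrpStmt) (hVap : VapStmt)
    (hFrp : ∀ (D : Dat) (φ : ℚ[X]), Adm D φ → (∃ x : ℝ, 0 < x ∧ pv φ x ≤ D.lam) →
      ∀ (ι : Type) [Fintype ι] [DecidableEq ι] (κ : ι → ℕ), Function.Injective κ →
        FreeE (kr fun i => sy (TrP D φ (κ i)))) : DepStmt := by
  intro D φ hφ
  obtain ⟨x0, hx0⟩ := hφ.low
  obtain ⟨m, hm⟩ := exists_nat_gt (-x0)
  have hφ' : Adm D (φ.comp (X - C (m : ℚ))) := by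
    refine ⟨?_, ?_, x0 + m, ?_⟩
    · rw [natDegree_shift]
      exact hφ.deg
    · rw [lead_shift]
      exact hφ.lead
    · rw [pv_shift, add_sub_cancel_right]
      exact hx0
  have hpos : ∃ x : ℝ, 0 < x ∧ pv (φ.comp (X - C (m : ℚ))) x ≤ D.lam := by
    refine ⟨x0 + m, by linarith, ?_⟩
    rw [pv_shift, add_sub_cancel_right]
    exact hx0
  obtain ⟨n1, hn1⟩ := win_of_free hSym hE hSys hGdn hTrp hVap D _ hφ'.deg hφ'.lead
    (hFrp D _ hφ' hpos)
  refine ⟨n1, fun P hP => ?_⟩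
  have hwin : ∀ K n : ℕ, n1 K ≤ n →
      Nat.card {l : ℕ // l ∈ {l : ℕ | Excx D P (pv φ l)} ∧ n < l + K ∧ l ≤ n} ≤
        (D.r * (D.r + 1) / 2) ^ 2 := by
    intro K n hn
    refine (card_shift _ {l : ℕ | Excx D P (pv (φ.comp (X - C (m : ℚ))) l)} m ?_ K n).trans
      (hn1 P hP K (n + m) (by omega))
    intro l hl
    show Excx D P (pv (φ.comp (X - C (m : ℚ))) ((l + m : ℕ) : ℝ))
    rw [pv_shift]
    push_cast
    rw [add_sub_cancel_right]
    exact hl
  exact ⟨hwin, densZero_of_card _ _ n1 hwin⟩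

end Pool.Agent.Helper26_MT100
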