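import Pool.Agent.MT100.StmtsP
import Pool.Agent.Helper26_MT100.DenW

/-!
# Module GDN: windows and density for a general family of free systems
-/

namespace Pool.Agent.Helper26_MT100

open Filter Topology Matrix
open Pool.Agent.MT100

/-- GDN. -/
theorem gdn (hE : EvaStmt) (hG : GfnStmt) (hSys : SysStmt) : GdnStmt := by
  intro m _ _ b T hT hfree thr
  set x : ℕ → ℕ → m → ℂ := fun κ n c => ((ev (T κ b c) ((n : ℝ))⁻¹ : ℝ) : ℂ) with hx
  have hind : ∀ (J : ℕ) (κ : Fin J → ℕ), Function.Injective κ → ∃ n0 : ℕ, ∀ n ≥ n0,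
      ∀ c : (Fin J → m) → ℚ, ∑ β, (c β : ℂ) * ∏ i, x (κ i) n (β i) = 0 → c = 0 := by
    intro J κ hκ
    have hkr : IsG (kr fun i => T (κ i)) := hSys.2 _ _ _ fun i => hT (κ i)
    obtain ⟨n0, hn0⟩ := hG _ _ hkr (hfree (Fin J) κ hκ)
    have hconv : ∀ p : Fin J × m × m, ∃ n2 : ℕ, ∀ n ≥ n2,
        Sb ((n : ℝ))⁻¹ (T (κ p.1) p.2.1 p.2.2) := by
      intro p
      obtain ⟨Kk, N, q, B, hgs⟩ := hT (κ p.1)
      obtain ⟨δ, hδ, hs⟩ := hE.1 _ (hgs.gH p.2.1 p.2.2)
      have h3 : Tendsto (fun n : ℕ => ((n : ℝ))⁻¹) atTop (𝓝 0) :=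
        tendsto_inv_atTop_nhds_zero_nat
      have h4 := (Metric.tendsto_atTop.1 h3) δ hδ
      obtain ⟨n2, hn2⟩ := h4
      refine ⟨n2, fun n hn => hs _ ?_⟩
      have := hn2 n hn
      rwa [Real.dist_eq, sub_zero] at this
    choose n2 hn2 using hconv
    refine ⟨max n0 (Finset.univ.sup n2), fun n hn c hc => ?_⟩
    have hn0' : n0 ≤ n := le_trans (le_max_left _ _) hn
    have hSb : ∀ i a b, Sb ((n : ℝ))⁻¹ (T (κ i) a b) := fun i a b =>
      hn2 (i, a, b) n (le_trans (Finset.le_sup (f := n2) (Finset.mem_univ (i, a, b)))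
        (le_trans (le_max_right _ _) hn))
    have hval : ∀ β : Fin J → m, ev (kr (fun i => T (κ i)) (fun _ => b) β)
        ((n : ℝ))⁻¹ = ∏ i, ev (T (κ i) b (β i)) ((n : ℝ))⁻¹ := by
      intro β
      show ev (∏ i, T (κ i) b (β i)) ((n : ℝ))⁻¹ = _
      exact (ev_prod hE ((n : ℝ))⁻¹ Finset.univ (fun i => T (κ i) b (β i))
        fun i _ => hSb i b (β i)).2
    have hmain := hn0 n hn0' (fun β' β => if β' = (fun _ => b) then c β else 0) ?_
    · funext β
      have h7 := congrFun (congrFun hmain (fun _ => b)) β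
      simp only [if_true, Matrix.zero_apply] at h7
      exact h7
    · rw [Finset.sum_eq_single (fun _ => b)]
      · simp only [if_true]
        have h9 : ((∑ β : Fin J → m, (c β : ℝ) * ∏ i, ev (T (κ i) b (β i)) ((n : ℝ))⁻¹ : ℝ) : ℂ)
            = 0 := by
          rw [← hc]
          push_cast
          rfl
        have h10 := Complex.ofReal_eq_zero.1 h9
        rw [← h10]
        refine Finset.sum_congr rfl fun β _ => ?_
        rw [hval]
      · intro β' _ hβ'
        refine Finset.sum_eq_zero fun β _ => ?_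
        rw [if_neg hβ']
        simp
      · intro h
        exact absurd (Finset.mem_univ _) h
  obtain ⟨m1, hm1, hwin⟩ := win_unif x (fun K => max K (thr K)) hind
  refine ⟨m1, fun S MM hMM hrel => ?_⟩
  have hw := hwin MM S hMM fun K n hn κ hκ hS =>
    hrel K n κ (le_trans (le_max_right _ _) hn) hκ
      (le_trans hκ.le (le_trans (le_max_left _ _) hn)) hS
  refine ⟨?_, ?_⟩
  · intro K n hn
    refine le_trans (le_of_eq ?_) (hw K n hn)
    have hK : K ≤ n := le_trans (hm1 K) hn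
    have h3 : (S ∩ Set.Ioc (n - K) n) = {l : ℕ | l ∈ S ∧ n < l + K ∧ l ≤ n} := by
      ext l
      simp only [Set.mem_inter_iff, Set.mem_ofPred_eq, Set.mem_Ioc]
      constructor
      · rintro ⟨h4, h5, h6⟩
        exact ⟨h4, by omega, h6⟩
      · rintro ⟨h4, h5, h6⟩
        exact ⟨h4, by omega, h6⟩
    rw [h3]
    rfl
  · apply densZero_of
    exact density_of_windows _ _ fun K => ⟨m1 K, fun n hn => hw K n hn⟩

end Pool.Agent.Helper26_MT100
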